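import Mathlib
import Pool.Agent.N228.AZ.Stm2

/-! # Project AZ: the exact constants in the areas (helper34) -/

set_option autoImplicit false
open Metric MeasureTheory Set Filter Topology

namespace Pool.Agent.N34.AZ.Tolim

open Pool.Agent.W747.MB Pool.Agent.TH363.CD Pool.Agent.N228.AZ

theorem iter_le (i : ℕ) : ∀ᶠ n : ℕ in atTop, Real.log^[i] (n:ℝ) ≤ n := by
  induction i with
  | zero => exact Eventually.of_forall fun n => by simp
  | succ i ih =>
    filter_upwards [ih, (tendsto_iterlog i).eventually_ge_atTop 1] with n h1 h2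
    rw [Function.iterate_succ_apply']
    have := Real.log_le_sub_one_of_pos (show 0 < Real.log^[i] (n:ℝ) by linarith)
    linarith

theorem key (k : ℝ) (hk : 0 < k) : ∀ᶠ x : ℝ in atTop, Real.log x ≤ k * x := by
  have h := Real.isLittleO_log_id_atTop.bound hk
  filter_upwards [h, eventually_gt_atTop 1] with x hx hx1
  rw [Real.norm_eq_abs, Real.norm_eq_abs, id, abs_of_pos (Real.log_pos hx1),
    abs_of_pos (by linarith : (0:ℝ) < x)] at hx
  exact hx

theorem facts (A δ D : ℝ) (hA : 1 ≤ A) (hδ : 0 < δ) : ∀ᶠ x : ℝ in atTop,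
    10 ^ 20 ≤ x ∧ 1 ≤ Real.log x ∧ A ^ 3 * Real.log x ≤ x ∧ 0 ≤ Real.log (Real.log x) ∧
      Real.log (Real.log x) + D ≤ δ * Real.log x := by
  have hA0 : 0 < A := by linarith
  filter_upwards [eventually_ge_atTop (10 ^ 20), Real.tendsto_log_atTop.eventually_ge_atTop 1,
    key (1 / A ^ 3) (by positivity), Real.tendsto_log_atTop.eventually (key (δ / 2) (by positivity)),
    Real.tendsto_log_atTop.eventually_ge_atTop (2 * D / δ)] with x h1 h2 h3 h4 h5
  refine ⟨h1, h2, ?_, Real.log_nonneg h2, ?_⟩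
  · have := mul_le_mul_of_nonneg_left h3 (show 0 ≤ A ^ 3 by positivity)
    calc A ^ 3 * Real.log x ≤ A ^ 3 * (1 / A ^ 3 * x) := this
      _ = x := by field_simp
  · rw [div_le_iff₀ hδ] at h5
    linarith

theorem real_of {x : ℝ} {m v : ENNReal} (hv : v ≠ ⊤) (h : ENNReal.ofReal x * m ≤ v) :
    x * m.toReal ≤ v.toReal := by
  have h1 := ENNReal.toReal_mono hv h
  rw [ENNReal.toReal_mul] at h1
  have h2 : x ≤ (ENNReal.ofReal x).toReal := by
    rw [ENNReal.toReal_ofReal']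
    exact le_max_left _ _
  exact (mul_le_mul_of_nonneg_right h2 ENNReal.toReal_nonneg).trans h1

theorem pi_q (i : ℕ) : Real.pi / 2 ^ i = 2 * Real.pi * (1 / 2) ^ (i + 1) := by
  rw [pow_succ, one_div_pow]
  ring

/-- the parameters `a = A log s`, `b = s / A` -/
theorem ab_facts {A s : ℝ} (hA : 1 ≤ A)
    (f1 : 10 ^ 20 ≤ s) (f2 : 1 ≤ Real.log s) (f3 : A ^ 3 * Real.log s ≤ s) :
    A * (A * Real.log s) ≤ s / A ∧ 1 ≤ A * Real.log s ∧ A * Real.log s ≤ s / A ∧ s / A ≤ s ∧
    Real.log (s / A / (A * Real.log s)) = Real.log s - 2 * Real.log A - Real.log (Real.log s) := by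
  have hA0 : 0 < A := by linarith
  have hs0 : 0 < s := lt_of_lt_of_le (by norm_num) f1
  have h1 : A * (A * Real.log s) ≤ s / A := by
    rw [le_div_iff₀ hA0]
    calc A * (A * Real.log s) * A = A ^ 3 * Real.log s := by ring
      _ ≤ s := f3
  have h2 : 1 ≤ A * Real.log s := by nlinarith
  refine ⟨h1, h2, ?_, div_le_self hs0.le hA, ?_⟩
  · exact le_trans (le_mul_of_one_le_left (by linarith) hA) h1
  · rw [Real.log_div (by positivity) (by positivity), Real.log_div (by positivity) (by positivity),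
      Real.log_mul (by positivity) (by positivity)]
    ring

theorem lower (hAn : P_ANU) (hZ : P_ZONE) (i : ℕ) (ε : ℝ) (hε : 0 < ε) : ∀ᶠ n : ℕ in atTop,
    ENNReal.ofReal ((Real.pi / 2 ^ i - ε) * Real.log^[i + 1] (n:ℝ) / n) ≤
      volume (Ex n (i + 1 + 1)) := by
  obtain ⟨q, hq⟩ : ∃ q : ℝ, q = (1 / 2) ^ (i + 1) := ⟨_, rfl⟩
  have hq0 : 0 < q := by rw [hq]; positivity
  have hq1 : q ≤ 1 := by rw [hq]; exact pow_le_one₀ (by norm_num) (by norm_num)
  obtain ⟨δ, hδ0, hδ1, hδ2, hδ3⟩ : ∃ δ : ℝ, 0 < δ ∧ δ ≤ 1 / 2 ∧ δ ≤ q ∧ 20 * δ ≤ ε := by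
    refine ⟨min (1 / 2) (min q (ε / 20)), ?_, min_le_left _ _,
      (min_le_right _ _).trans (min_le_left _ _), ?_⟩
    · exact lt_min (by norm_num) (lt_min hq0 (by positivity))
    · have : min (1 / 2) (min q (ε / 20)) ≤ ε / 20 := (min_le_right _ _).trans (min_le_right _ _)
      linarith
  obtain ⟨A, hA1, hz⟩ := hZ (i + 1) δ (by omega) hδ0
  have e : i + 1 - 1 = i := by omega
  rw [e] at hz
  filter_upwards [hz, hAn δ hδ0, (tendsto_iterlog i).eventually (facts A δ (2 * Real.log A) hA1 hδ0),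
    iter_le i, eventually_ge_atTop 1] with n hz ha hf hs hn
  obtain ⟨f1, f2, f3, f4, f5⟩ := hf
  have hsucc : Real.log^[i + 1] (n:ℝ) = Real.log (Real.log^[i] (n:ℝ)) :=
    Function.iterate_succ_apply' _ _ _
  rw [hsucc] at hz ⊢
  generalize Real.log^[i] (n:ℝ) = s at *
  obtain ⟨g1, g2, g3, g4, g5⟩ := ab_facts hA1 f1 f2 f3
  have hn0 : (0:ℝ) < n := by exact_mod_cast hn
  have v1 := (ha (A * Real.log s) (s / A) (by linarith) g3 (by linarith)).1
  have v2 := (hz (A * Real.log s) (s / A) le_rfl g1 le_rfl).1 (i + 1) (by omega) le_rfl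
  rw [← hq] at v2
  rw [g5] at v1
  calc ENNReal.ofReal ((Real.pi / 2 ^ i - ε) * Real.log s / n)
      ≤ ENNReal.ofReal ((q - δ) * ((1 - δ) *
        (2 * Real.pi * (Real.log s - 2 * Real.log A - Real.log (Real.log s)) / n))) := by
        apply ENNReal.ofReal_le_ofReal
        rw [pi_q, ← hq]
        have h1 : (1 - δ) * Real.log s ≤ Real.log s - 2 * Real.log A - Real.log (Real.log s) := by
          linarith
        have hpi := Real.pi_pos
        have hpi2 := Real.pi_lt_d2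
        have h2 : (q - δ) * ((1 - δ) * (2 * Real.pi * ((1 - δ) * Real.log s) / n)) ≤
            (q - δ) * ((1 - δ) *
        (2 * Real.pi * (Real.log s - 2 * Real.log A - Real.log (Real.log s)) / n)) := by
          have a1 : 0 ≤ q - δ := by linarith
          have a2 : 0 ≤ 1 - δ := by linarith
          gcongr
        refine le_trans ?_ h2
        have h3 : 2 * Real.pi * q - ε ≤ 2 * Real.pi * ((q - δ) * (1 - δ) ^ 2) := by
          have h4 : q - 3 * δ ≤ (q - δ) * (1 - δ) ^ 2 := by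
            have b1 : 0 ≤ (1 - q) * δ := mul_nonneg (by linarith) hδ0.le
            have b2 : 0 ≤ q * δ ^ 2 := by positivity
            have b3 : 0 ≤ δ ^ 2 * (2 - δ) := mul_nonneg (by positivity) (by linarith)
            nlinarith only [b1, b2, b3]
          have h5 := mul_le_mul_of_nonneg_left h4 (show 0 ≤ 2 * Real.pi by positivity)
          have h6 : 6 * Real.pi * δ ≤ 20 * δ := by
            have : 6 * Real.pi ≤ 20 := by linarith
            exact mul_le_mul_of_nonneg_right this hδ0.le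
          linarith
        have h7 : 0 ≤ Real.log s / n := by positivity
        calc (2 * Real.pi * q - ε) * Real.log s / n = (2 * Real.pi * q - ε) * (Real.log s / n) := by
              ring
          _ ≤ 2 * Real.pi * ((q - δ) * (1 - δ) ^ 2) * (Real.log s / n) :=
              mul_le_mul_of_nonneg_right h3 h7
          _ = _ := by ring
    _ = ENNReal.ofReal (q - δ) * ENNReal.ofReal ((1 - δ) *
        (2 * Real.pi * (Real.log s - 2 * Real.log A - Real.log (Real.log s)) / n)) :=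
        ENNReal.ofReal_mul (by linarith)
    _ ≤ ENNReal.ofReal (q - δ) * volume (Zn n (A * Real.log s) (s / A)) := by
        gcongr
        exact v1
    _ ≤ _ := v2
    _ ≤ _ := measure_mono inter_subset_left

theorem Zn_meas (n : ℕ) (a b : ℝ) : MeasurableSet (Zn n a b) := by
  have hY : Continuous (Y n) := by
    unfold Y
    fun_prop
  exact (isClosed_le continuous_const hY).measurableSet.inter
    (isClosed_le hY continuous_const).measurableSet

theorem geo (i : ℕ) : ∑ j ∈ Finset.range i, (1 / 2 : ℝ) ^ (j + 1) = 1 - (1 / 2) ^ i := by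
  induction i with
  | zero => simp
  | succ i ih => rw [Finset.sum_range_succ, ih]; ring

theorem split (hM : P_MEAS) {n : ℕ} (hn : 2 ≤ n) (i : ℕ) (δ : ℝ) (Z : Set ℂ)
    (hZm : MeasurableSet Z) (hfin : volume Z ≠ ⊤)
    (h1 : ∀ j, 1 ≤ j → j ≤ i + 1 →
      ENNReal.ofReal ((1 / 2) ^ j - δ) * volume Z ≤ volume (Ex n (j + 1) ∩ Z))
    (h2 : ENNReal.ofReal ((1 / 2) ^ (i + 1) - δ) * volume Z ≤
      volume (Z \ N62a1eb23.multibrotSet n)) :
    (volume (NN n (i + 1) ∩ Z)).toReal ≤ ((1 / 2) ^ (i + 1) + (i + 1) * δ) * (volume Z).toReal := by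
  obtain ⟨hMm, hEm⟩ := hM n hn
  set G : ℕ → Set ℂ := fun j => Ex n (j + 1 + 1) ∩ Z with hG
  have hGm : ∀ j, MeasurableSet (G j) := fun j => (hEm _).1.inter hZm
  have hsubM : ∀ m, Ex n m ⊆ N62a1eb23.multibrotSet n := by
    rintro m c ⟨z, hz, -⟩
    exact mem_multibrot hn hz
  have hper : ∀ m m' : ℕ, ∀ c, c ∈ Ex n m → c ∈ Ex n m' → m = m' := by
    rintro m m' c ⟨z, hz, h3⟩ ⟨w, hw, h4⟩
    have := period_unique hn hz hw
    omega
  have hGd : Set.PairwiseDisjoint (↑(Finset.range i)) G := by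
    intro j _ j' _ hjj'
    rw [Function.onFun, Set.disjoint_left]
    rintro c ⟨hc1, -⟩ ⟨hc2, -⟩
    have := hper _ _ c hc1 hc2
    omega
  set U : Set ℂ := ⋃ j ∈ Finset.range i, G j with hU
  have hUv : volume U = ∑ j ∈ Finset.range i, volume (G j) :=
    measure_biUnion_finset hGd (fun j _ => hGm j)
  have hUm : MeasurableSet U := Finset.measurableSet_biUnion _ fun j _ => hGm j
  set T : Set ℂ := Z \ N62a1eb23.multibrotSet n with hT
  have hTm : MeasurableSet T := hZm.diff hMm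
  have hTU : Disjoint T U := by
    rw [Set.disjoint_left]
    rintro c ⟨-, hc1⟩ hc2
    rw [hU, Set.mem_iUnion₂] at hc2
    obtain ⟨j, -, hc3, -⟩ := hc2
    exact hc1 (hsubM _ hc3)
  have hS : Disjoint (NN n (i + 1) ∩ Z) (T ∪ U) := by
    rw [Set.disjoint_left]
    rintro c ⟨hc0, -⟩ (⟨-, hc1⟩ | hc2)
    · exact hc1 hc0.1
    · rw [hU, Set.mem_iUnion₂] at hc2
      obtain ⟨j, hj, ⟨z, hz, -⟩, -⟩ := hc2
      rw [Finset.mem_range] at hj
      exact hc0.2 (j + 1 + 1) (by omega) (by omega) ⟨z, hz⟩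
  have hle : volume (NN n (i + 1) ∩ Z) + (volume T + volume U) ≤ volume Z := by
    rw [← measure_union hTU hUm, ← measure_union hS (hTm.union hUm)]
    apply measure_mono
    rintro c (hc | hc | hc)
    · exact hc.2
    · exact hc.1
    · rw [hU, Set.mem_iUnion₂] at hc
      obtain ⟨j, -, -, hc3⟩ := hc
      exact hc3
  have fin : ∀ W : Set ℂ, W ⊆ Z → volume W ≠ ⊤ := fun W hW =>
    ne_top_of_le_ne_top hfin (measure_mono hW)
  have hTf : volume T ≠ ⊤ := fin _ diff_subset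
  have hGf : ∀ j, volume (G j) ≠ ⊤ := fun j => fin _ inter_subset_right
  have hUf : volume U ≠ ⊤ := by
    rw [hUv]
    exact ENNReal.sum_ne_top.2 fun j _ => hGf j
  have hSf : volume (NN n (i + 1) ∩ Z) ≠ ⊤ := fin _ inter_subset_right
  have hr := ENNReal.toReal_mono hfin hle
  rw [ENNReal.toReal_add hSf (ENNReal.add_ne_top.2 ⟨hTf, hUf⟩), ENNReal.toReal_add hTf hUf, hUv,
    ENNReal.toReal_sum fun j _ => hGf j] at hr
  have hTr := real_of hTf h2
  have hGr : ∑ j ∈ Finset.range i, ((1 / 2) ^ (j + 1) - δ) * (volume Z).toReal ≤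
      ∑ j ∈ Finset.range i, (volume (G j)).toReal := by
    apply Finset.sum_le_sum
    intro j hj
    rw [Finset.mem_range] at hj
    exact real_of (hGf j) (h1 (j + 1) (by omega) (by omega))
  rw [← Finset.sum_mul, Finset.sum_sub_distrib, geo, Finset.sum_const, Finset.card_range,
    nsmul_eq_mul] at hGr
  have hpow : (1 / 2 : ℝ) ^ i = 2 * (1 / 2) ^ (i + 1) := by rw [pow_succ]; ring
  rw [hpow] at hGr
  generalize (1 / 2 : ℝ) ^ (i + 1) = q at *
  generalize (volume Z).toReal = z at *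
  linarith

theorem upper (hM : P_MEAS) (hAn : P_ANU) (hZ : P_ZONE) (i : ℕ) (ε : ℝ) (hε : 0 < ε) :
    ∀ᶠ n : ℕ in atTop, volume (NN n (i + 1)) ≤
      ENNReal.ofReal ((Real.pi / 2 ^ i + ε) * Real.log^[i + 1] (n:ℝ) / n) := by
  obtain ⟨q, hq⟩ : ∃ q : ℝ, q = (1 / 2) ^ (i + 1) := ⟨_, rfl⟩
  have hq0 : 0 < q := by rw [hq]; positivity
  have hq1 : q ≤ 1 := by rw [hq]; exact pow_le_one₀ (by norm_num) (by norm_num)
  obtain ⟨I, hI⟩ : ∃ I : ℝ, I = (i : ℝ) + 1 := ⟨_, rfl⟩
  have hI1 : 1 ≤ I := by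
    rw [hI]
    have : (0 : ℝ) ≤ i := Nat.cast_nonneg i
    linarith
  obtain ⟨δ, hδ0, hδ1, hδ3⟩ : ∃ δ : ℝ, 0 < δ ∧ δ ≤ 1 / 2 ∧ (40 + 16 * I) * δ ≤ ε := by
    refine ⟨min (1 / 2) (ε / (40 + 16 * I)), ?_, min_le_left _ _, ?_⟩
    · exact lt_min (by norm_num) (by positivity)
    · have : min (1 / 2) (ε / (40 + 16 * I)) ≤ ε / (40 + 16 * I) := min_le_right _ _
      rw [le_div_iff₀ (by positivity)] at this
      linarith
  obtain ⟨A, hA1, hz⟩ := hZ (i + 1) δ (by omega) hδ0
  obtain ⟨C, hC, hU⟩ := UU_all i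
  obtain ⟨C', hC', hL⟩ := Lam_le i
  have hlA : 0 ≤ Real.log A := Real.log_nonneg hA1
  have hl3 : 0 ≤ Real.log 3 := Real.log_nonneg (by norm_num)
  obtain ⟨Q, hQ⟩ : ∃ Q : ℝ, Q = 600000 * C * (C' + 2) := ⟨_, rfl⟩
  have hQ0 : 0 ≤ Q := by rw [hQ]; positivity
  have e : i + 1 - 1 = i := by omega
  rw [e] at hz
  filter_upwards [hz, hAn δ hδ0, (tendsto_iterlog i).eventually
    (facts A δ (2 * Real.log A + Real.log 3 + Q) hA1 hδ0), iter_le i,
    eventually_ge_atTop (10 ^ 6), hL] with n hz ha hf hs hn hLam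
  obtain ⟨f1, f2, f3, f4, f5⟩ := hf
  have hsucc : Real.log^[i + 1] (n:ℝ) = Real.log (Real.log^[i] (n:ℝ)) :=
    Function.iterate_succ_apply' _ _ _
  rw [hsucc] at hz ⊢
  generalize Real.log^[i] (n:ℝ) = s at *
  obtain ⟨g1, g2, g3, g4, g5⟩ := ab_facts hA1 f1 f2 f3
  have hn2 : 2 ≤ n := by omega
  have hnR : (10 : ℝ) ^ 6 ≤ n := by exact_mod_cast hn
  have hn0 : (0:ℝ) < n := by linarith
  have hA0 : 0 < A := by linarith
  have hs0 : 0 < s := lt_of_lt_of_le (by norm_num) f1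
  obtain ⟨a, had⟩ : ∃ a : ℝ, a = A * Real.log s := ⟨_, rfl⟩
  obtain ⟨b, hbd⟩ : ∃ b : ℝ, b = s / A := ⟨_, rfl⟩
  rw [← had, ← hbd] at g1 g3 g5
  rw [← had] at g2
  rw [← hbd] at g4
  have hpi := Real.pi_pos
  have hpi2 := Real.pi_lt_d2
  obtain ⟨ℓ, hℓ⟩ : ∃ ℓ : ℝ, ℓ = Real.log s := ⟨_, rfl⟩
  obtain ⟨m, hm⟩ : ∃ m : ℝ, m = Real.log s / n := ⟨_, rfl⟩
  have hm0 : 0 ≤ m := by rw [hm]; positivity
  -- the four pieces
  have w1 := (ha (1 / 3) a le_rfl (by linarith) (by linarith)).2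
  have w2 := (ha a b (by linarith) g3 (by linarith)).2
  have w3 := (ha b s (by linarith) g4 (by linarith)).2
  obtain ⟨K, hK⟩ : ∃ K : ℕ, 2 * (n : ℝ) < 2 ^ K * s := by
    obtain ⟨K, hK⟩ := pow_unbounded_of_one_lt (2 * (n : ℝ) / s) (show (1 : ℝ) < 2 by norm_num)
    exact ⟨K, by rwa [div_lt_iff₀ hs0] at hK⟩
  have w4 := tailN hC hU hn K s f1 hK
  have c1 : (1 + δ) * (2 * Real.pi * Real.log (a / (1 / 3)) / n) ≤ 10 * δ * m := by
    have h1 : Real.log (a / (1 / 3)) ≤ δ * Real.log s := by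
      have e1 : a / (1 / 3) = 3 * (A * Real.log s) := by rw [had]; ring
      rw [e1, Real.log_mul (by norm_num) (by positivity), Real.log_mul (by positivity)
        (by positivity)]
      linarith
    calc (1 + δ) * (2 * Real.pi * Real.log (a / (1 / 3)) / n) ≤
        (1 + δ) * (2 * Real.pi * (δ * Real.log s) / n) := by gcongr
      _ = ((1 + δ) * (2 * Real.pi)) * (δ * m) := by rw [hm]; ring
      _ ≤ 10 * (δ * m) := by
        apply mul_le_mul_of_nonneg_right _ (by positivity)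
        nlinarith
      _ = _ := by ring
  have c3 : (1 + δ) * (2 * Real.pi * Real.log (s / b) / n) ≤ 10 * δ * m := by
    have h1 : Real.log (s / b) ≤ δ * Real.log s := by
      have e1 : s / b = A := by rw [hbd]; field_simp
      rw [e1]
      linarith
    calc (1 + δ) * (2 * Real.pi * Real.log (s / b) / n) ≤
        (1 + δ) * (2 * Real.pi * (δ * Real.log s) / n) := by gcongr
      _ = ((1 + δ) * (2 * Real.pi)) * (δ * m) := by rw [hm]; ring
      _ ≤ 10 * (δ * m) := by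
        apply mul_le_mul_of_nonneg_right _ (by positivity)
        nlinarith
      _ = _ := by ring
  have c4 : 600000 * C * (Lam i n + 2 + Real.log s) / (n * s) ≤ δ * m := by
    have h1 : Lam i n + 2 + Real.log s ≤ (C' + 2) * s := by
      have := Real.log_le_sub_one_of_pos hs0
      nlinarith
    have h2 : Q ≤ δ * Real.log s := by linarith
    calc 600000 * C * (Lam i n + 2 + Real.log s) / (n * s) ≤
        600000 * C * ((C' + 2) * s) / (n * s) := by gcongr
      _ = Q / n := by rw [hQ]; field_simp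
      _ ≤ δ * Real.log s / n := by gcongr
      _ = δ * m := by rw [hm]; ring
  have hZeq : Zn n a b = {c : ℂ | a ≤ Y n c ∧ Y n c ≤ b} := rfl
  have hfin : volume (Zn n a b) ≠ ⊤ := ne_top_of_le_ne_top ENNReal.ofReal_ne_top w2
  have hzz := hz a b (le_of_eq had.symm) g1 (le_of_eq hbd)
  have w2' := split hM hn2 i δ (Zn n a b) (Zn_meas n a b) hfin hzz.1 hzz.2
  rw [← hq, ← hI] at w2'
  have hZr : (volume (Zn n a b)).toReal ≤ (1 + δ) * (2 * Real.pi * m) := by
    have h0 : 0 ≤ Real.log (b / a) := Real.log_nonneg (by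
      rw [le_div_iff₀ (by linarith)]; linarith)
    have h1 := ENNReal.toReal_le_of_le_ofReal (by positivity) w2
    refine h1.trans ?_
    have h2 : Real.log (b / a) ≤ Real.log s := by rw [g5]; linarith
    calc (1 + δ) * (2 * Real.pi * Real.log (b / a) / n) ≤
        (1 + δ) * (2 * Real.pi * Real.log s / n) := by gcongr
      _ = _ := by rw [hm]; ring
  have c2 : (volume (NN n (i + 1) ∩ Zn n a b)).toReal ≤ (2 * Real.pi * q + (7 + 14 * I) * δ) * m := by
    refine w2'.trans ?_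
    have h1 : 0 ≤ q + I * δ := by positivity
    refine (mul_le_mul_of_nonneg_left hZr h1).trans ?_
    have h2 : (q + I * δ) * ((1 + δ) * (2 * Real.pi * m)) =
        (2 * Real.pi * (q + q * δ + I * δ * (1 + δ))) * m := by ring
    rw [h2]
    apply mul_le_mul_of_nonneg_right _ hm0
    have h3 : q * δ ≤ δ := by nlinarith
    have h4 : I * δ * (1 + δ) ≤ 2 * (I * δ) := by
      have : 0 ≤ I * δ := by positivity
      nlinarith
    have h5 : 2 * Real.pi * (q * δ + I * δ * (1 + δ)) ≤ 7 * (δ + 2 * (I * δ)) := by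
      apply mul_le_mul (by linarith) (by linarith) (by positivity) (by norm_num)
    linarith
  have c2' : volume (NN n (i + 1) ∩ Zn n a b) ≤
      ENNReal.ofReal ((2 * Real.pi * q + (7 + 14 * I) * δ) * m) := by
    rw [← ENNReal.ofReal_toReal (ne_top_of_le_ne_top hfin (measure_mono inter_subset_right))]
    exact ENNReal.ofReal_le_ofReal c2
  have hsub : NN n (i + 1) ⊆ (({c : ℂ | 1 / 3 ≤ Y n c ∧ Y n c ≤ a} ∪ (NN n (i + 1) ∩ Zn n a b)) ∪
      {c : ℂ | b ≤ Y n c ∧ Y n c ≤ s}) ∪ (NN n (i + 1) ∩ {c | s ≤ Y n c}) := by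
    intro c hc
    obtain ⟨a1, a2, a3⟩ := alv' hn hc.1 (hc.2 1 le_rfl (by omega))
    rcases le_total s (Y n c) with h3 | h3
    · exact Or.inr ⟨hc, h3⟩
    left
    rcases le_total b (Y n c) with h4 | h4
    · exact Or.inr ⟨h4, h3⟩
    left
    rcases le_total a (Y n c) with h5 | h5
    · exact Or.inr ⟨hc, h5, h4⟩
    · exact Or.inl ⟨a1, h5⟩
  have t1 := w1.trans (ENNReal.ofReal_le_ofReal c1)
  have t3 := w3.trans (ENNReal.ofReal_le_ofReal c3)
  have t4 := w4.trans (ENNReal.ofReal_le_ofReal c4)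
  refine (measure_mono hsub).trans ?_
  refine (measure_union_le _ _).trans ?_
  refine (add_le_add ((measure_union_le _ _).trans (add_le_add (measure_union_le _ _) le_rfl))
    le_rfl).trans ?_
  refine (add_le_add (add_le_add (add_le_add t1 c2') t3) t4).trans ?_
  rw [← ENNReal.ofReal_add (by positivity) (by positivity),
    ← ENNReal.ofReal_add (by positivity) (by positivity),
    ← ENNReal.ofReal_add (by positivity) (by positivity)]
  apply ENNReal.ofReal_le_ofReal
  rw [pi_q, ← hq]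
  have e2 : (2 * Real.pi * q + ε) * Real.log s / n = (2 * Real.pi * q + ε) * m := by rw [hm]; ring
  rw [e2]
  have h6 := mul_le_mul_of_nonneg_right hδ3 hm0
  have h7 : 0 ≤ δ * m := by positivity
  have h8 : 0 ≤ I * (δ * m) := by positivity
  linarith

theorem tend {f : ℕ → ℝ} {L : ℝ}
    (h : ∀ ε : ℝ, 0 < ε → ∀ᶠ n in atTop, L - ε ≤ f n ∧ f n ≤ L + ε) : Tendsto f atTop (𝓝 L) := by
  refine tendsto_order.2 ⟨fun a ha => ?_, fun a ha => ?_⟩
  · filter_upwards [h ((L - a) / 2) (by linarith)] with n hn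
    linarith [hn.1]
  · filter_upwards [h ((a - L) / 2) (by linarith)] with n hn
    linarith [hn.2]

theorem main : P_TOLIM := by
  intro hM hAn hZ k hk
  obtain ⟨i, rfl⟩ : ∃ i, k = i + 1 := ⟨k - 1, by omega⟩
  have e : i + 1 - 1 = i := by omega
  rw [e]
  have both : ∀ ε : ℝ, 0 < ε → ∀ᶠ n : ℕ in atTop,
      (Real.pi / 2 ^ i - ε ≤ n * (volume (Ex n (i + 1 + 1))).toReal / Real.log^[i + 1] (n:ℝ) ∧
        n * (volume (Ex n (i + 1 + 1))).toReal / Real.log^[i + 1] (n:ℝ) ≤ Real.pi / 2 ^ i + ε) ∧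
      (Real.pi / 2 ^ i - ε ≤ n * (volume (NN n (i + 1))).toReal / Real.log^[i + 1] (n:ℝ) ∧
        n * (volume (NN n (i + 1))).toReal / Real.log^[i + 1] (n:ℝ) ≤ Real.pi / 2 ^ i + ε) := by
    intro ε hε
    filter_upwards [lower hAn hZ i ε hε, upper hM hAn hZ i ε hε,
      (tendsto_iterlog (i + 1)).eventually_ge_atTop 1, eventually_ge_atTop 2] with n h1 h2 h3 h4
    have hn0 : (0:ℝ) < n := by
      have : 0 < n := by omega
      exact_mod_cast this
    have hsub := measure_mono (μ := volume) (Ex_sub_NN h4 (i + 1))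
    have hNf : volume (NN n (i + 1)) ≠ ⊤ := ne_top_of_le_ne_top ENNReal.ofReal_ne_top h2
    have hEf : volume (Ex n (i + 1 + 1)) ≠ ⊤ := ne_top_of_le_ne_top hNf hsub
    generalize Real.log^[i + 1] (n:ℝ) = ℓ at *
    have hℓ : 0 < ℓ := by linarith
    have hL : 0 < Real.pi / 2 ^ i := by
      have := Real.pi_pos
      positivity
    generalize Real.pi / 2 ^ i = L at *
    have r1 : (L - ε) * ℓ / n ≤ (volume (Ex n (i + 1 + 1))).toReal := by
      have := real_of (m := 1) hEf (by rw [mul_one]; exact h1)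
      rwa [ENNReal.toReal_one, mul_one] at this
    have r2 : (volume (Ex n (i + 1 + 1))).toReal ≤ (volume (NN n (i + 1))).toReal :=
      ENNReal.toReal_mono hNf hsub
    have r3 : (volume (NN n (i + 1))).toReal ≤ (L + ε) * ℓ / n :=
      ENNReal.toReal_le_of_le_ofReal (by positivity) h2
    have lo : ∀ v : ℝ, (L - ε) * ℓ / n ≤ v → L - ε ≤ n * v / ℓ := by
      intro v hv
      rw [div_le_iff₀ hn0] at hv
      rw [le_div_iff₀ hℓ]
      linarith
    have hi : ∀ v : ℝ, v ≤ (L + ε) * ℓ / n → n * v / ℓ ≤ L + ε := by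
      intro v hv
      rw [le_div_iff₀ hn0] at hv
      rw [div_le_iff₀ hℓ]
      linarith
    exact ⟨⟨lo _ r1, hi _ (r2.trans r3)⟩, ⟨lo _ (r1.trans r2), hi _ r3⟩⟩
  exact ⟨tend fun ε hε => (both ε hε).mono fun n h => h.1,
    tend fun ε hε => (both ε hε).mono fun n h => h.2⟩

end Pool.Agent.N34.AZ.Tolim
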